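import Pool.Agent.Lib_helper27.S.Main

/-!
MP_360872_lc: there is a model of ZFC in which `cov(B) < 𝔠` and (∗) holds.
-/

namespace Pool.Agent.Results.MP_360872_lc.Consistency

open Pool.Agent.Lib_helper27 Fml

theorem result : ∃ (M : Type 1) (E : M → M → Prop), IsModelOfZFC E ∧ Holds E covLtStar :=
  S.main

end Pool.Agent.Results.MP_360872_lc.Consistency
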