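import Mathlib
import Pool.Agent.Lib_helper71.EntDefs
import Pool.Agent.Lib_helper71.EntG

set_option autoImplicit false

open Cardinal Pool.Agent.Lib_helper71.Ent

/-- If `cov(N) = 𝔠` (fewer than continuum many Lebesgue null sets never cover `ℝ`) then, for every
integer `n > 1`, there is a set of reals which is `(𝔠,n)`-entangled but not
`(𝔠,n+1)`-entangled. -/
theorem Pool.Agent.Results.MP_360872_lc.CovNull.result (h : covNull = 𝔠) : Star :=
  star_of_covNull h
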