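import Mathlib
import Pool.Agent.Lib_helper71.EntDefs
import Pool.Agent.Lib_helper71.EntG

set_option autoImplicit false

open Cardinal Pool.Agent.Lib_helper71.Ent

/-- For `n > 1`, there is a `(𝔠,n)`-entangled set of reals that is not `(𝔠,n+1)`-entangled iff there
is a closed set `S ⊆ ℝⁿ⁺¹` omitting some type (on all coordinates) which is not covered by fewer
than `𝔠` closed sets each of which omits some type on a proper subset of the coordinates. -/
theorem Pool.Agent.Results.MP_360872_lc.CoverChar.result (n : ℕ) (hn : 1 < n) :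
    StarAt n ↔ ∃ (S : Set (Fin (n + 1) → ℝ)) (t : Fin (n + 1) → Bool), IsClosed S ∧
      Omits t Finset.univ S ∧ ∀ 𝓑 : Set (Set (Fin (n + 1) → ℝ)),
        (∀ B ∈ 𝓑, IsClosed B ∧ ∃ A : Finset (Fin (n + 1)), A ≠ Finset.univ ∧ ∃ t', Omits t' A B) →
          S ⊆ ⋃₀ 𝓑 → 𝔠 ≤ #𝓑 :=
  starAt_iff hn
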