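import Mathlib
import Pool.Agent.Lib_helper71.EntDefs
import Pool.Agent.Lib_helper71.EntG

set_option autoImplicit false

open Cardinal Pool.Agent.Lib_helper71.Ent

/-- If the continuum is a limit cardinal then, for every integer `n > 1`, there is a set of reals
which is `(𝔠,n)`-entangled but not `(𝔠,n+1)`-entangled. -/
theorem Pool.Agent.Results.MP_360872_lc.LimitContinuum.result
    (h : Order.IsSuccLimit (𝔠 : Cardinal.{0})) : Star :=
  star_of_limit h
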